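import Pool.Agent.Helper42.DB.Goals2

/-! PACKET PAIRS of MP_48f005_an. -/

namespace Pool.Agent.Helper42.DB.PkPAIRS

open Pool.Agent.Helper42.DB

theorem thm : G_PAIRS := by
  classical
  intro F B _ _ I J hI hJ dI dJ
  set P : Set (F × B) := {x : F × B | (I x.1 ∩ J x.2).Nonempty} with hP
  have hch : ∀ p : F × B, ∃ t : ℝ, p ∈ P → t ∈ I p.1 ∧ t ∈ J p.2 := by
    intro p
    by_cases hp : p ∈ P
    · obtain ⟨t, ht⟩ := hp
      exact ⟨t, fun _ => ht⟩
    · exact ⟨0, fun h => absurd h hp⟩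
  choose pt hpt using hch
  have eqI : ∀ f f' (t : ℝ), t ∈ I f → t ∈ I f' → f = f' := by
    intro f f' t h1 h2
    by_contra h
    exact Set.disjoint_left.mp (dI f f' h) h1 h2
  have eqJ : ∀ b b' (t : ℝ), t ∈ J b → t ∈ J b' → b = b' := by
    intro f f' t h1 h2
    by_contra h
    exact Set.disjoint_left.mp (dJ f f' h) h1 h2
  let Φ : F × B → F ⊕ B := fun p =>
    if ∀ b', (p.1, b') ∈ P → pt (p.1, b') ≤ pt p then Sum.inl p.1 else Sum.inr p.2
  -- key step
  have key : ∀ f f' b, (f, b) ∈ P → (f', b) ∈ P → pt (f, b) < pt (f', b) →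
      (¬ ∀ b', (f, b') ∈ P → pt (f, b') ≤ pt (f, b)) → False := by
    intro f f' b h1 h2 hlt hn
    push Not at hn
    obtain ⟨b2, h3, h4⟩ := hn
    rcases le_or_gt (pt (f', b)) (pt (f, b2)) with h5 | h5
    · have h6 : pt (f', b) ∈ I f :=
        (hI f).out (hpt _ h1).1 (hpt _ h3).1 ⟨hlt.le, h5⟩
      have h7 := eqI f f' _ h6 (hpt _ h2).1
      rw [h7] at hlt
      exact lt_irrefl _ hlt
    · have h6 : pt (f, b2) ∈ J b :=
        (hJ b).out (hpt _ h1).2 (hpt _ h2).2 ⟨h4.le, h5.le⟩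
      have h7 := eqJ b b2 _ h6 (hpt _ h3).2
      rw [← h7] at h4
      exact lt_irrefl _ h4
  have inj : Set.InjOn Φ P := by
    rintro ⟨f, b⟩ hp ⟨f', b'⟩ hp' heq
    by_cases h1 : ∀ b', (f, b') ∈ P → pt (f, b') ≤ pt (f, b)
    · by_cases h2 : ∀ b'', (f', b'') ∈ P → pt (f', b'') ≤ pt (f', b')
      · have e1 : Φ (f, b) = Sum.inl f := if_pos h1
        have e2 : Φ (f', b') = Sum.inl f' := if_pos h2
        rw [e1, e2] at heq
        have e3 : f = f' := Sum.inl.inj heq
        subst e3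
        have e4 : pt (f, b) = pt (f, b') := le_antisymm (h2 b hp) (h1 b' hp')
        have e5 := eqJ b b' (pt (f, b)) (hpt _ hp).2 (by rw [e4]; exact (hpt _ hp').2)
        rw [e5]
      · have e1 : Φ (f, b) = Sum.inl f := if_pos h1
        have e2 : Φ (f', b') = Sum.inr b' := if_neg h2
        rw [e1, e2] at heq
        cases heq
    · by_cases h2 : ∀ b'', (f', b'') ∈ P → pt (f', b'') ≤ pt (f', b')
      · have e1 : Φ (f, b) = Sum.inr b := if_neg h1
        have e2 : Φ (f', b') = Sum.inl f' := if_pos h2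
        rw [e1, e2] at heq
        cases heq
      · have e1 : Φ (f, b) = Sum.inr b := if_neg h1
        have e2 : Φ (f', b') = Sum.inr b' := if_neg h2
        rw [e1, e2] at heq
        have e3 : b = b' := Sum.inr.inj heq
        subst e3
        rcases lt_trichotomy (pt (f, b)) (pt (f', b)) with h3 | h3 | h3
        · exact (key f f' b hp hp' h3 h1).elim
        · have e5 := eqI f f' (pt (f, b)) (hpt _ hp).1 (by rw [h3]; exact (hpt _ hp').1)
          rw [e5]
        · exact (key f' f b hp' hp h3 h2).elim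
  calc Set.ncard P = Set.ncard (Φ '' P) := (Set.ncard_image_of_injOn inj).symm
    _ ≤ Set.ncard (Set.univ : Set (F ⊕ B)) := Set.ncard_le_ncard (Set.subset_univ _) Set.finite_univ
    _ = Fintype.card F + Fintype.card B := by
      rw [Set.ncard_univ, Nat.card_eq_fintype_card, Fintype.card_sum]

end Pool.Agent.Helper42.DB.PkPAIRS
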